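import Pool.Agent.Helper68.DG.HC9

/-!
# De Giorgi's conjecture in dimension six for doubly radial solutions

A solution in dimension six which is rotationally symmetric in three variables and in two further
variables (the class which contains, in dimension nine with four and four variables, the known
counterexample) has hyperplane level sets.
-/

set_option autoImplicit false

namespace Pool.Agent.Results.MP_800410_an.DoublyRadialDimSix

open Pool.Agent.Helper68.DG

/-- `u` is invariant under the rotations around the affine subspace `c + Fᗮ`. -/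
def RotSym {n : ℕ} (F : Submodule ℝ (EuclideanSpace ℝ (Fin n))) (c : EuclideanSpace ℝ (Fin n))
    (u : EuclideanSpace ℝ (Fin n) → ℝ) : Prop :=
  ∀ x y, x - y ∈ F → ‖x - c‖ = ‖y - c‖ → u x = u y

/-- All level sets of `u` are hyperplanes. -/
def HyperplaneLevels {n : ℕ} (u : EuclideanSpace ℝ (Fin n) → ℝ) : Prop :=
  ∀ y ∈ Set.range u, ∃ s : AffineSubspace ℝ (EuclideanSpace ℝ (Fin n)),
    Module.finrank ℝ s.direction = n - 1 ∧ (s : Set (EuclideanSpace ℝ (Fin n))) = u ⁻¹' {y}

/-- Let `u` be a bounded `C²` solution of `Δu + u - u³ = 0` on `ℝ⁶`, increasing in some direction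
`e`, and let `F₁`, `F₂` be orthogonal subspaces of dimensions three and two such that `u` is
invariant under the rotations around the affine subspaces `c + F₁ᗮ` and `c + F₂ᗮ`. Then all level
sets of `u` are hyperplanes. -/
theorem result {u : EuclideanSpace ℝ (Fin 6) → ℝ} (hu : ContDiff ℝ 2 u)
    (hb : ∃ M : ℝ, ∀ x, |u x| ≤ M) (heq : ∀ x, Laplacian.laplacian u x + u x - u x ^ 3 = 0)
    {e : EuclideanSpace ℝ (Fin 6)} (he : ∀ x, 0 < fderiv ℝ u x e)
    (F₁ F₂ : Submodule ℝ (EuclideanSpace ℝ (Fin 6))) (h₁ : Module.finrank ℝ F₁ = 3)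
    (h₂ : Module.finrank ℝ F₂ = 2) (hF : F₁ ⟂ F₂) (c : EuclideanSpace ℝ (Fin 6))
    (hsym₁ : RotSym F₁ c u) (hsym₂ : RotSym F₂ c u) : HyperplaneLevels u :=
  hc_final hu hb heq he F₁ F₂ h₁ h₂ (fun _ hf _ hg => hF.inner_eq hf hg) c hsym₁ hsym₂

end Pool.Agent.Results.MP_800410_an.DoublyRadialDimSix
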