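import Pool.Agent.Helper68.DG.HAA

/-!
# De Giorgi's conjecture in dimension four for solutions with an isometry of infinite order

A solution in dimension four which is invariant under some isometry of infinite order (a rotation
by an irrational angle, a screw motion, a translation, ...) has hyperplane level sets.
-/

set_option autoImplicit false

namespace Pool.Agent.Results.MP_800410_an.IsometryDimFour

open Pool.Agent.Helper68.DG

/-- Let `u` be a bounded `C²` solution of `Δu + u - u³ = 0` on `ℝ⁴`, increasing in some direction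
`e`, such that `u ∘ g = u` for an isometry `g` of infinite order. Then all level sets of `u` are
hyperplanes. -/
theorem result {u : EuclideanSpace ℝ (Fin 4) → ℝ} (hu : ContDiff ℝ 2 u)
    (hb : ∃ M : ℝ, ∀ x, |u x| ≤ M) (heq : ∀ x, Laplacian.laplacian u x + u x - u x ^ 3 = 0)
    {e : EuclideanSpace ℝ (Fin 4)} (he : ∀ x, 0 < fderiv ℝ u x e)
    (g : EuclideanSpace ℝ (Fin 4) ≃ᵢ EuclideanSpace ℝ (Fin 4))
    (hg : ∀ k : ℕ, 0 < k → (⇑g)^[k] ≠ id) (hinv : ∀ x, u (g x) = u x) :
    ∀ y ∈ Set.range u, ∃ s : AffineSubspace ℝ (EuclideanSpace ℝ (Fin 4)),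
      Module.finrank ℝ s.direction = 3 ∧
        (s : Set (EuclideanSpace ℝ (Fin 4))) = u ⁻¹' {y} :=
  ha_final hu hb heq he g hg hinv

end Pool.Agent.Results.MP_800410_an.IsometryDimFour
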