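import Pool.Agent.Helper70.DGL.RandMain

/-!
# De Giorgi's conjecture holds almost surely for random solutions with invariant law

A random bounded solution `u` of `Δu + u - u³ = 0` on `ℝⁿ` (any `n`) with `∂ₑu > 0` whose law is
invariant under `n - 3` linearly independent translations (for `n = 4`: under one translation) is
almost surely planar, `u(x) = tanh ((⟨a, x⟩ - c) / √2)`, and its level sets are hyperplanes.
-/

set_option autoImplicit false

open MeasureTheory Module

namespace Pool.Agent.Results.MP_800410_an.RandomSolutions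

section

variable {E : Type} [NormedAddCommGroup E] [InnerProductSpace ℝ E] [FiniteDimensional ℝ E]

/-- bounded classical solutions of `Δu + u - u³ = 0` with `∂ₑu > 0` everywhere -/
def IsSolution (e : E) (u : E → ℝ) : Prop :=
  ContDiff ℝ 2 u ∧ (∃ M : ℝ, ∀ x, |u x| ≤ M) ∧
    (∀ x, Laplacian.laplacian u x + u x - u x ^ 3 = 0) ∧ ∀ x, 0 < fderiv ℝ u x e

/-- `u` is a planar transition -/
def Planar (u : E → ℝ) : Prop :=
  ∃ (a : E) (c : ℝ), ‖a‖ = 1 ∧ ∀ x, u x = Real.tanh ((inner ℝ a x - c) / √2)

/-- the level sets of `u` (of the values of `u`) are hyperplanes -/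
def HyperplaneLevels (u : E → ℝ) : Prop :=
  ∀ y ∈ Set.range u, ∃ s : AffineSubspace ℝ E,
    finrank ℝ s.direction + 1 = finrank ℝ E ∧ (s : Set E) = u ⁻¹' {y}

/-- the law of the random function `u` (a probability measure on the space of all functions, with
the product σ-algebra) is invariant under the translation by `v` -/
def InvariantLaw {Ω : Type} [MeasurableSpace Ω] (P : Measure Ω) (u : Ω → E → ℝ) (v : E) : Prop :=
  P.map (fun ω x => u ω (x + v)) = P.map u

theorem levels {u : E → ℝ} (hu : Planar u) : HyperplaneLevels u := by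
  obtain ⟨a, c, ha, hu⟩ := hu
  have ha0 : a ≠ 0 := by
    rintro rfl
    rw [norm_zero] at ha
    exact zero_ne_one ha
  rintro y ⟨x₁, rfl⟩
  refine ⟨AffineSubspace.mk' x₁ (ℝ ∙ a)ᗮ, ?_, ?_⟩
  · rw [AffineSubspace.direction_mk']
    have h1 := Submodule.finrank_add_finrank_orthogonal (ℝ ∙ a : Submodule ℝ _)
    rw [finrank_span_singleton ha0] at h1
    omega
  · ext x
    rw [SetLike.mem_coe, AffineSubspace.mem_mk', vsub_eq_sub,
      Submodule.mem_orthogonal_singleton_iff_inner_right, Set.mem_preimage, Set.mem_singleton_iff,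
      hu, hu, Real.tanh_injective.eq_iff, inner_sub_right, sub_eq_zero]
    constructor
    · intro h
      rw [h]
    · intro h
      have h2 : √(2 : ℝ) ≠ 0 := by positivity
      field_simp at h
      linarith

end

theorem result (n k : ℕ) (hk : n ≤ k + 3) (e : EuclideanSpace ℝ (Fin n))
    (v : Fin k → EuclideanSpace ℝ (Fin n)) (hv : LinearIndependent ℝ v) (Ω : Type)
    [MeasurableSpace Ω] (P : Measure Ω) [IsProbabilityMeasure P]
    (u : Ω → EuclideanSpace ℝ (Fin n) → ℝ) (hm : ∀ x, Measurable fun ω => u ω x)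
    (hu : ∀ᵐ ω ∂P, IsSolution e (u ω)) (hinv : ∀ i, InvariantLaw P u (v i)) :
    ∀ᵐ ω ∂P, Planar (u ω) ∧ HyperplaneLevels (u ω) := by
  filter_upwards [Pool.Agent.Helper70.DGL.Rand.random hk e v hv P u (measurable_pi_lambda _ hm)
    (hu.mono fun ω h => ⟨⟨h.1, h.2.1, h.2.2.1⟩, h.2.2.2⟩) hinv] with ω h
  exact ⟨h, levels h⟩

end Pool.Agent.Results.MP_800410_an.RandomSolutions
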